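import Pool.Agent.H80.CC.LiftPl

/-!
# MP_1bad5e_ag: the surfaces `D z ^ n = f(t, x)`, the branch curve `f(t, x) = 0`, and sections

`K` is a field and `V` is a set of discrete valuation rings of `K`. For the Tate conjecture
`K = F(t)`, `F` a finite field with `n ∣ |F| - 1`, and `V` is the set of all discrete valuation
rings of `K` containing `F`. `f ∈ K[x]` is monic, irreducible and separable of degree `d` prime to
`n`, `L = K[x]/(f)`, `D ∈ K^*`, and `J` is the Jacobian of the curve `D z ^ n = f(x)` over `K`, on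
which `ζ ∈ μ_n` acts. For each `A ∈ V` we assume that the curve `f(t, x) = 0` is, in a suitable
coordinate, regular above `A` and the equation is not twisted at `A`, or that there is only one
place of `L` above `A`. At one `A ∈ V` we allow that the valuation of `D` is prime to `n`, that `f`
is squarefree modulo the maximal ideal, and that all its irreducible factors but one lift to
divisors `P i (x) = 0`, `z = Q i (x)` of the curve, `i < r`.

Then each element of the `(1 - ζ)`-Selmer group of `J` is represented, after multiplication by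
values of the divisors `(P i, Q i)`, by an element of `L^*` which has, at each place of `L` above
`V`, a valuation divisible by `n`. So if the complete curve with function field `L` (the branch
curve) has no divisor class of order dividing `n` and the constants are in `K`, then the Selmer
group is a free `ℤ/n`-module with the values of the `r` divisors `(P i, Q i)` as a basis, and it is
equal to `J(K)/(1 - ζ)J(K)` if all those classes come from `J(K)`.
-/

namespace Pool.Agent.Results.MP_1bad5e_ag.CoverSections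

open Polynomial IsDedekindDomain

/-- `(P, Q)` represents, over the field `k`, an effective divisor on `c z ^ m = g(x)` which is
disjoint from the points with `z = 0`, the points with `P(x) = 0` and `z = Q(x)`: `P` is monic,
prime to `g`, and divides `c Q ^ m - g`. -/
def IsMumford {k : Type} [Field k] (m : ℕ) (c : k) (g P Q : k[X]) : Prop :=
  P.Monic ∧ IsCoprime P g ∧ P ∣ C c * Q ^ m - g

/-- The value `∏ c ^ a (x(p) - θ) = (-c ^ a) ^ r P(θ)` of the function `c ^ a (x - θ)` on the
divisor, in `k[x]/(g)`, where `θ` is the class of `x` and `r` is the degree of `P`. If `n` divides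
`a d + 1`, where `d` is the degree of `g`, then `c ^ a (x - θ)` is on `c z ^ n = g(x)` near the
point at infinity the `n`-th power of a function with leading coefficient one. -/
noncomputable def descent {k : Type} [Field k] (a : ℕ) (c : k) (g P : k[X]) : AdjoinRoot g :=
  AdjoinRoot.mk g (C (-c ^ a)) ^ P.natDegree * AdjoinRoot.mk g P

/-- The element `δ` of `k[x]/(g)` is, up to an `n`-th power, the value of the descent map of
`c z ^ n = g(x)` on a divisor: `δ γ ^ n` is a product of elements `descent a c g P ^ (n / m)`, with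
`m` a divisor of `n` and `P` dividing `c Q ^ m - g`, that is, `z ^ (n / m) = Q(x)` on the divisor
with `P(x) = 0`. -/
def IsValue {k : Type} [Field k] (n a : ℕ) (c : k) (g : k[X]) (δ : AdjoinRoot g) : Prop :=
  ∃ (r : ℕ) (m : Fin r → ℕ) (P Q : Fin r → k[X]) (γ : AdjoinRoot g),
    (∀ i, m i ∣ n ∧ IsMumford (m i) c g (P i) (Q i)) ∧
    δ * γ ^ n = ∏ i, descent a c g (P i) ^ (n / m i)

/-- After a change of the variable `x` to `l x + m` the equation `D z ^ n = f(x)` is good at the
discrete valuation ring `A` of `K`: the polynomial `g(x) = l ^ (-d) f(l x + m)` has coefficients in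
`A`, the ring `A[x]/(g)` is integrally closed, and `D l ^ (-d)` is a unit of `A` times an `n`-th
power; `d` is the degree of `f`. -/
def IsGood {K : Type} [Field K] (n : ℕ) (D : K) (f : K[X]) (A : ValuationSubring K) : Prop :=
  ∃ (l m e : K) (u : Aˣ) (g : A[X]), l ≠ 0 ∧ g.Monic ∧
    C (l ^ f.natDegree) * g.map (algebraMap A K) = f.comp (C l * X + C m) ∧
    IsIntegrallyClosed (AdjoinRoot g) ∧ D = l ^ f.natDegree * algebraMap A K u * e ^ n

/-- The completion `K_A` of `K` at the discrete valuation ring `A`. -/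
abbrev Completion {K : Type} [Field K] (A : ValuationSubring K) [IsDiscreteValuationRing A] :
    Type :=
  (IsDiscreteValuationRing.maximalIdeal A).adicCompletion K

/-- The natural map from `L = K[x]/(f)` to `L ⊗ K_A = K_A[x]/(f)`. -/
noncomputable def toCompletion {K : Type} [Field K] (f : K[X]) (A : ValuationSubring K)
    [IsDiscreteValuationRing A] :
    AdjoinRoot f →+* AdjoinRoot (f.map (algebraMap K (Completion A))) :=
  AdjoinRoot.map (algebraMap K (Completion A)) f (f.map (algebraMap K (Completion A))) dvd_rfl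

/-- `δ ∈ L^*` has norm in `K^{*n}` and, at each good `A ∈ V`, there is a unit `b` of the integral
closure of `A` in `L` such that `δ b` is in `L ⊗ K_A` a value of the descent map of
`D z ^ n = f(x)`. -/
structure IsSelmer {K : Type} [Field K] (V : Set (ValuationSubring K)) (n a : ℕ) (D : K)
    (f : K[X]) (δ : AdjoinRoot f) : Prop where
  ne_zero : δ ≠ 0
  norm : ∃ y : K, Algebra.norm K δ = y ^ n
  locally : ∀ (A : ValuationSubring K) [IsDiscreteValuationRing A], A ∈ V → IsGood n D f A →
    ∃ b : (integralClosure A (AdjoinRoot f))ˣ,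
      IsValue n a (algebraMap K (Completion A) D) (f.map (algebraMap K (Completion A)))
        (toCompletion f A (δ * (b : integralClosure A (AdjoinRoot f))))

/-- `δ` is a unit times an `n`-th power in every valuation ring `R` of `L` above a discrete
valuation ring `A ∈ V`. -/
def IsDivisible {K : Type} [Field K] (V : Set (ValuationSubring K)) (n : ℕ) (f : K[X])
    [Fact (Irreducible f)] (δ : AdjoinRoot f) : Prop :=
  ∀ (A : ValuationSubring K) [IsDiscreteValuationRing A], A ∈ V →
    ∀ R : ValuationSubring (AdjoinRoot f), R.comap (algebraMap K (AdjoinRoot f)) = A →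
      ∃ z : AdjoinRoot f, z ≠ 0 ∧ δ * z ^ n ∈ R ∧ (δ * z ^ n)⁻¹ ∈ R

/-- `A` is a discrete valuation ring, the valuation `e` of `D` at `A` is positive and prime to `n`,
and, `k` being the residue field, the polynomial `f` is in `A[x]`, squarefree in `k[x]`, and is in
`k[x]` the product of an irreducible polynomial `h` and of the reductions of the polynomials `P i`,
which are irreducible in `k[x]`; here `P i` is monic in `A[x]` and divides `D (Q i) ^ n - f` in
`A[x]`. -/
def IsLifting {K : Type} [Field K] (n : ℕ) (D : K) (f : K[X]) {r : ℕ} (P Q : Fin r → K[X])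
    (A : ValuationSubring K) : Prop :=
  IsDiscreteValuationRing A ∧
  ∃ (e : ℕ) (ϖ : A) (u : Aˣ) (g : A[X]) (P' Q' : Fin r → A[X]) (h : (IsLocalRing.ResidueField A)[X]),
    e ≠ 0 ∧ e.Coprime n ∧ Irreducible ϖ ∧ D = algebraMap A K (u * ϖ ^ e) ∧
    g.Monic ∧ g.map (algebraMap A K) = f ∧ Squarefree (g.map (IsLocalRing.residue A)) ∧
    Irreducible h ∧
    g.map (IsLocalRing.residue A) = (∏ i, (P' i).map (IsLocalRing.residue A)) * h ∧
    ∀ i, (P' i).map (algebraMap A K) = P i ∧ (Q' i).map (algebraMap A K) = Q i ∧ (P' i).Monic ∧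
      Irreducible ((P' i).map (IsLocalRing.residue A)) ∧ P' i ∣ C (u * ϖ ^ e) * Q' i ^ n - g

/-- `A` is good or there is only one place of `L` above `A`. -/
def IsRegular {K : Type} [Field K] (n : ℕ) (D : K) (f : K[X]) (A : ValuationSubring K) : Prop :=
  IsGood n D f A ∨ IsLocalRing (integralClosure A (AdjoinRoot f))

/-- Either `r = 0` and all discrete valuation rings `A ∈ V` are regular, or this holds except for
one `A₀ ∈ V`, which is lifting. -/
def IsRegularLifting {K : Type} [Field K] (V : Set (ValuationSubring K)) (n : ℕ) (D : K) (f : K[X])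
    {r : ℕ} (P Q : Fin r → K[X]) : Prop :=
  (r = 0 ∧ ∀ A ∈ V, IsDiscreteValuationRing A → IsRegular n D f A) ∨
    ∃ A₀ ∈ V, IsLifting n D f P Q A₀ ∧
      ∀ A ∈ V, IsDiscreteValuationRing A → A ≠ A₀ → IsRegular n D f A

section values

variable {k : Type} [Field k]

theorem descent_isUnit (a : ℕ) (c : k) (hc : c ≠ 0) (g P : k[X]) (hP : IsCoprime P g) :
    IsUnit (descent a c g P) := by
  refine IsUnit.mul (IsUnit.pow _ ?_) ?_
  · have h1 : IsUnit (C (-c ^ a) : k[X]) := by
      rw [isUnit_C, isUnit_iff_ne_zero]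
      exact neg_ne_zero.2 (pow_ne_zero _ hc)
    exact h1.map _
  · obtain ⟨s, t, hst⟩ := hP
    refine IsUnit.of_mul_eq_one (AdjoinRoot.mk g s) ?_
    rw [← map_mul, ← map_one (AdjoinRoot.mk g), ← hst, map_add, map_mul (AdjoinRoot.mk g) t g,
      AdjoinRoot.mk_self, mul_zero, add_zero, mul_comm]

theorem isUnit_of_isValue {n a : ℕ} (hn : n ≠ 0) {c : k} (hc : c ≠ 0) {g : k[X]}
    {δ γ : AdjoinRoot g} {r : ℕ} {m : Fin r → ℕ} {P Q : Fin r → k[X]}
    (hm : ∀ i, m i ∣ n ∧ IsMumford (m i) c g (P i) (Q i))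
    (h : δ * γ ^ n = ∏ i, descent a c g (P i) ^ (n / m i)) : IsUnit δ ∧ IsUnit γ := by
  have h1 : IsUnit (δ * γ ^ n) := by
    rw [h]
    refine (Finset.univ.prod_induction _ IsUnit (fun _ _ => IsUnit.mul) isUnit_one
      fun i _ => IsUnit.pow _ (descent_isUnit a c hc g (P i) (hm i).2.2.1))
  rw [IsUnit.mul_iff, isUnit_pow_iff hn] at h1
  exact h1

theorem norm_descent (a : ℕ) {n : ℕ} (c : k) (g : k[X]) (hg : g.Monic)
    (ha : n ∣ a * g.natDegree + 1) (m : ℕ) (hm : m ∣ n) (P Q : k[X])
    (h : IsMumford m c g P Q) :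
    ∃ y : k, Algebra.norm k (descent a c g P ^ (n / m)) = y ^ n := by
  obtain ⟨y, hy⟩ := H94.TL.norm_descent c g hg m a (hm.trans ha) P Q h.1 h.2.2
  refine ⟨y, ?_⟩
  have h1 : Algebra.norm k (descent a c g P) = y ^ m := hy
  rw [map_pow, h1, ← pow_mul, Nat.mul_div_cancel' hm]

theorem norm_of_isValue {n a : ℕ} (hn : n ≠ 0) {c : k} (hc : c ≠ 0) {g : k[X]} (hg : g.Monic)
    (ha : n ∣ a * g.natDegree + 1) {δ : AdjoinRoot g} (h : IsValue n a c g δ) :
    ∃ y : k, Algebra.norm k δ = y ^ n := by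
  obtain ⟨r, m, P, Q, γ, hm, h⟩ := h
  have hu := isUnit_of_isValue hn hc hm h
  choose y hy using fun i => norm_descent a c g hg ha (m i) (hm i).1 (P i) (Q i) (hm i).2
  have h1 := congrArg (Algebra.norm k) h
  rw [map_mul, map_pow, map_prod] at h1
  simp only [hy] at h1
  rw [Finset.prod_pow] at h1
  have h2 : Algebra.norm k γ ≠ 0 := (hu.2.map (Algebra.norm k)).ne_zero
  exact ⟨(∏ i, y i) / Algebra.norm k γ, by rw [div_pow, eq_div_iff (pow_ne_zero _ h2), h1]⟩

theorem isValue_one (n a : ℕ) (c : k) (g : k[X]) : IsValue n a c g 1 :=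
  ⟨0, Fin.elim0, Fin.elim0, Fin.elim0, 1, fun i => i.elim0, by simp⟩

theorem isValue_mul {n a : ℕ} {c : k} {g : k[X]} {δ δ' : AdjoinRoot g} (h : IsValue n a c g δ)
    (h' : IsValue n a c g δ') : IsValue n a c g (δ * δ') := by
  obtain ⟨r, m, P, Q, γ, hm, h⟩ := h
  obtain ⟨r', m', P', Q', γ', hm', h'⟩ := h'
  refine ⟨r + r', Fin.append m m', Fin.append P P', Fin.append Q Q', γ * γ', fun i => ?_, ?_⟩
  · refine Fin.addCases (fun i => ?_) (fun i => ?_) i
    · rw [Fin.append_left, Fin.append_left, Fin.append_left]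
      exact hm i
    · rw [Fin.append_right, Fin.append_right, Fin.append_right]
      exact hm' i
  · rw [Fin.prod_univ_add]
    simp only [Fin.append_left, Fin.append_right]
    rw [← h, ← h', mul_pow]
    ring

theorem isValue_pow {n a : ℕ} {c : k} {g : k[X]} {δ : AdjoinRoot g} (h : IsValue n a c g δ)
    (s : ℕ) : IsValue n a c g (δ ^ s) := by
  induction s with
  | zero => rw [pow_zero]; exact isValue_one n a c g
  | succ s ih => rw [pow_succ]; exact isValue_mul ih h

theorem isValue_prod {n a : ℕ} {c : k} {g : k[X]} {ι : Type} (S : Finset ι)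
    (δ : ι → AdjoinRoot g) (h : ∀ i ∈ S, IsValue n a c g (δ i)) :
    IsValue n a c g (∏ i ∈ S, δ i) := by
  classical
  induction S using Finset.induction_on with
  | empty => rw [Finset.prod_empty]; exact isValue_one n a c g
  | insert i S hi ih =>
    rw [Finset.prod_insert hi]
    exact isValue_mul (h i (Finset.mem_insert_self _ _))
      (ih fun j hj => h j (Finset.mem_insert_of_mem hj))

theorem isValue_descent {n a : ℕ} (hn : n ≠ 0) {c : k} {g P Q : k[X]} (h : IsMumford n c g P Q) :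
    IsValue n a c g (descent a c g P) := by
  refine ⟨1, fun _ => n, fun _ => P, fun _ => Q, 1, fun _ => ⟨dvd_rfl, h⟩, ?_⟩
  rw [one_pow, mul_one, Fin.prod_univ_one, Nat.div_self (Nat.pos_of_ne_zero hn), pow_one]

/-- a value times an `n`-th power -/
theorem isValue_mul_pow {n a : ℕ} {c : k} {g : k[X]} [Fact (Irreducible g)] {γ z : AdjoinRoot g}
    (h : IsValue n a c g γ) (hz : z ≠ 0) : IsValue n a c g (γ * z ^ n) := by
  obtain ⟨r, m, P, Q, γ', hm, hγ'⟩ := h
  refine ⟨r, m, P, Q, γ' / z, hm, ?_⟩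
  rw [← hγ', div_pow, mul_assoc, mul_div_cancel₀ _ (pow_ne_zero n hz)]

end values

section

variable {K : Type} [Field K]

theorem isSelmer_of_isValue {V : Set (ValuationSubring K)} {n a : ℕ} (hn : n ≠ 0) {D : K}
    (hD : D ≠ 0) {f : K[X]} (hf : f.Monic) [Fact (Irreducible f)] (ha : n ∣ a * f.natDegree + 1)
    {δ : AdjoinRoot f} (h : IsValue n a D f δ) : IsSelmer V n a D f δ := by
  refine ⟨?_, norm_of_isValue hn hD hf ha h, fun A _ _ _ => ⟨1, ?_⟩⟩
  · obtain ⟨r, m, P, Q, γ, hm, h⟩ := h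
    exact (isUnit_of_isValue hn hD hm h).1.ne_zero
  · have h1 : (((1 : (integralClosure A (AdjoinRoot f))ˣ) : integralClosure A (AdjoinRoot f)) :
        AdjoinRoot f) = 1 := rfl
    rw [h1, mul_one]
    exact H80.CC.val_map (algebraMap K (Completion A)) h

/-- a valuation ring of `L` above `A` contains the elements which are integral over `A` -/
theorem mem_of_integral {L : Type} [Field L] [Algebra K L] (A : ValuationSubring K)
    (R : ValuationSubring L) (hR : R.comap (algebraMap K L) = A) (x : L) (hx : IsIntegral A x) :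
    x ∈ R := by
  obtain ⟨p, hp, hpx⟩ := hx
  have hmem : ∀ s : A, algebraMap A L s ∈ R := by
    intro s
    have h1 : (s : K) ∈ R.comap (algebraMap K L) := by rw [hR]; exact s.2
    exact h1
  let φ : A →+* R := (algebraMap A L).codRestrict R.toSubring hmem
  have h1 : IsIntegral R x := by
    refine ⟨p.map φ, hp.map φ, ?_⟩
    rw [eval₂_map]
    exact hpx
  obtain ⟨y, hy⟩ := IsIntegrallyClosed.isIntegral_iff.1 h1
  rw [← hy]
  exact y.2

theorem isSeparable_adjoinRoot (f : K[X]) (hf : f.Monic) [Fact (Irreducible f)]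
    (hsep : f.Separable) : Algebra.IsSeparable K (AdjoinRoot f) := by
  have hfin : FiniteDimensional K (AdjoinRoot f) := hf.finite_adjoinRoot
  have h1 : IsSeparable K (AdjoinRoot.root f) := by
    have h2 : minpoly K (AdjoinRoot.root f) ∣ f := by
      apply minpoly.dvd
      rw [AdjoinRoot.aeval_eq, AdjoinRoot.mk_self]
    exact hsep.of_dvd h2
  have h3 : Algebra.IsSeparable K (IntermediateField.adjoin K {AdjoinRoot.root f}) :=
    (IntermediateField.isSeparable_adjoin_simple_iff_isSeparable _ _).2 h1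
  have h4 : IntermediateField.adjoin K {AdjoinRoot.root f} = ⊤ := by
    have h5 : Algebra.adjoin K {AdjoinRoot.root f} = ⊤ := AdjoinRoot.adjoinRoot_eq_top
    apply IntermediateField.toSubalgebra_injective
    rw [IntermediateField.adjoin_simple_toSubalgebra_of_isAlgebraic
      (Algebra.IsAlgebraic.isAlgebraic _), h5]
    rfl
  rw [h4] at h3
  exact (AlgEquiv.Algebra.isSeparable_iff
    (IntermediateField.topEquiv (F := K) (E := AdjoinRoot f))).1 h3

/-- an element of the Selmer group is divisible at the regular places -/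
theorem divisible_at {V : Set (ValuationSubring K)} {n a : ℕ} (hn : n ≠ 0) {D : K}
    (hD : D ≠ 0) {f : K[X]} (hf : f.Monic) [Fact (Irreducible f)] (hsep : f.Separable)
    (ha : n ∣ a * f.natDegree + 1) {δ : AdjoinRoot f} (h : IsSelmer V n a D f δ)
    (A : ValuationSubring K) [IsDiscreteValuationRing A] (hA : A ∈ V) (hreg : IsRegular n D f A)
    (R : ValuationSubring (AdjoinRoot f)) (hR : R.comap (algebraMap K (AdjoinRoot f)) = A) :
    ∃ z : AdjoinRoot f, z ≠ 0 ∧ δ * z ^ n ∈ R ∧ (δ * z ^ n)⁻¹ ∈ R := by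
  rcases hreg with hgood | hloc
  · obtain ⟨b, hb⟩ := h.locally A hA hgood
    obtain ⟨l, m, e, u, g, hl, hg, hfg, hic, hDe⟩ := hgood
    have he : e ≠ 0 := by
      rintro rfl
      rw [zero_pow hn, mul_zero] at hDe
      exact hD hDe
    exact H80.CC.good_place f n a hn ha D l m e u g hl hg hfg hic he hDe δ h.ne_zero h.norm
      ((b : integralClosure A (AdjoinRoot f)) : AdjoinRoot f)
      (((b⁻¹ : (integralClosure A (AdjoinRoot f))ˣ) : integralClosure A (AdjoinRoot f)) :
        AdjoinRoot f) (b : integralClosure A (AdjoinRoot f)).2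
      ((b⁻¹ : (integralClosure A (AdjoinRoot f))ˣ) : integralClosure A (AdjoinRoot f)).2
      (by
        have h1 := congrArg (fun x : integralClosure A (AdjoinRoot f) => (x : AdjoinRoot f))
          (Units.mul_inv b)
        exact h1)
      hb R (fun x hx => mem_of_integral A R hR x hx)
  · have hfin : FiniteDimensional K (AdjoinRoot f) := hf.finite_adjoinRoot
    have hrank : Module.finrank K (AdjoinRoot f) = f.natDegree :=
      finrank_quotient_span_eq_natDegree' hf
    have hs : Algebra.IsSeparable K (AdjoinRoot f) := isSeparable_adjoinRoot f hf hsep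
    have hcop : n.Coprime (Module.finrank K (AdjoinRoot f)) := by
      rw [hrank]
      have h1 : Nat.gcd n f.natDegree ∣ a * f.natDegree + 1 := (Nat.gcd_dvd_left _ _).trans ha
      have h2 : Nat.gcd n f.natDegree ∣ a * f.natDegree := (Nat.gcd_dvd_right _ _).mul_left _
      exact Nat.dvd_one.1 ((Nat.dvd_add_right h2).1 h1)
    have hded : IsDedekindDomain (integralClosure A (AdjoinRoot f)) :=
      integralClosure.isDedekindDomain A K (AdjoinRoot f)
    obtain ⟨J, b, c, hJ, hc, h1, h2⟩ := H80.CC.one_place (A := A) (K := K) (L := AdjoinRoot f) hn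
      hcop (fun v w w' _ _ => by
        apply HeightOneSpectrum.ext
        rw [IsLocalRing.eq_maximalIdeal w.isMaximal, IsLocalRing.eq_maximalIdeal w'.isMaximal])
      δ h.ne_zero h.norm
    exact H80.CC.unit_at (integralClosure A (AdjoinRoot f)).subtype Subtype.val_injective R
      (fun s => mem_of_integral A R hR _ s.2) J hJ b c hc δ h1 h2

/-- a constant in front -/
theorem const_root {n a : ℕ} (hn : n ≠ 0) {f : K[X]} (hf : f.Monic) [Fact (Irreducible f)]
    (ha : n ∣ a * f.natDegree + 1) {δ γ z : AdjoinRoot f} (hδ : δ ≠ 0) (c : K)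
    (h : δ = algebraMap K (AdjoinRoot f) c * γ * z ^ n)
    (hN : ∃ y : K, Algebra.norm K δ = y ^ n) (hN' : ∃ y : K, Algebra.norm K γ = y ^ n) :
    ∃ z' : AdjoinRoot f, z' ≠ 0 ∧ δ = γ * z' ^ n := by
  have hfinite : Module.Finite K (AdjoinRoot f) := hf.finite_adjoinRoot
  have hfin : Module.finrank K (AdjoinRoot f) = f.natDegree :=
    finrank_quotient_span_eq_natDegree' hf
  have hcopn : n.Coprime f.natDegree := by
    have h1 : Nat.gcd n f.natDegree ∣ a * f.natDegree + 1 := (Nat.gcd_dvd_left _ _).trans ha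
    have h2 : Nat.gcd n f.natDegree ∣ a * f.natDegree := (Nat.gcd_dvd_right _ _).mul_left _
    exact Nat.dvd_one.1 ((Nat.dvd_add_right h2).1 h1)
  obtain ⟨y, hy⟩ := hN
  obtain ⟨y', hy'⟩ := hN'
  have h6 := hy
  rw [h, map_mul, map_mul, map_pow, Algebra.norm_algebraMap, hfin, hy'] at h6
  have hc0 : c ≠ 0 := by
    intro h0
    rw [h0, map_zero, zero_mul, zero_mul] at h
    exact hδ h
  have hz0 : z ≠ 0 := by
    rintro rfl
    rw [zero_pow hn, mul_zero] at h
    exact hδ h
  have hNz : Algebra.norm K z ≠ 0 := by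
    rw [Ne, Algebra.norm_eq_zero_iff]
    exact hz0
  have hy0 : y ≠ 0 := by
    rintro rfl
    rw [zero_pow hn, Algebra.norm_eq_zero_iff] at hy
    exact hδ hy
  have hy'0 : y' ≠ 0 := by
    rintro rfl
    rw [zero_pow hn, mul_zero, zero_mul] at h6
    exact pow_ne_zero n hy0 h6.symm
  have h8 : c ^ f.natDegree = (y / (y' * Algebra.norm K z)) ^ n := by
    rw [div_pow, eq_div_iff (pow_ne_zero _ (mul_ne_zero hy'0 hNz)), ← h6, mul_pow]
    ring
  obtain ⟨k', hk'0, hk'⟩ := H94.TL.root_of_pow_eq (K := K) hcopn c _ hc0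
    (div_ne_zero hy0 (mul_ne_zero hy'0 hNz)) h8
  refine ⟨algebraMap K (AdjoinRoot f) k' * z, mul_ne_zero ?_ hz0, ?_⟩
  · rw [Ne, map_eq_zero]; exact hk'0
  · rw [h, hk', map_pow, mul_pow]
    ring

end

/-- the Selmer group is stable under multiplication by values over `K` -/
theorem isSelmer_mul {K : Type} [Field K] {V : Set (ValuationSubring K)} {n a : ℕ} (hn : n ≠ 0)
    {D : K} (hD : D ≠ 0) {f : K[X]} (hf : f.Monic) [Fact (Irreducible f)]
    (ha : n ∣ a * f.natDegree + 1) {δ γ : AdjoinRoot f} (hδ : IsSelmer V n a D f δ)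
    (hγ : IsValue n a D f γ) : IsSelmer V n a D f (δ * γ) := by
  have hγs := isSelmer_of_isValue (V := V) hn hD hf ha hγ
  refine ⟨mul_ne_zero hδ.ne_zero hγs.ne_zero, ?_, fun A _ hA hgood => ?_⟩
  · obtain ⟨y, hy⟩ := hδ.norm
    obtain ⟨y', hy'⟩ := hγs.norm
    exact ⟨y * y', by rw [map_mul, hy, hy', mul_pow]⟩
  · obtain ⟨b, hval⟩ := hδ.locally A hA hgood
    refine ⟨b, ?_⟩
    rw [mul_right_comm, map_mul]
    exact isValue_mul hval (H80.CC.val_map (algebraMap K (Completion A)) hγ)

section lifting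

variable {K : Type} [Field K] {n a : ℕ} {D : K} {f : K[X]} {r : ℕ} {P Q : Fin r → K[X]}
  {A : ValuationSubring K}

/-- what is used of a lifting place -/
theorem IsLifting.data (h : IsLifting n D f P Q A) (hn : n ≠ 0) (hf : f.Monic)
    [Fact (Irreducible f)] (ha : n ∣ a * f.natDegree + 1) :
    (∀ i, IsMumford n D f (P i) (Q i)) ∧
    (∀ δ : AdjoinRoot f, (∀ s : Fin r → ℕ, δ * ∏ i, descent a D f (P i) ^ s i ≠ 0 ∧
        ∃ y : K, Algebra.norm K (δ * ∏ i, descent a D f (P i) ^ s i) = y ^ n) →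
      ∃ s : Fin r → ℕ, ∀ R : ValuationSubring (AdjoinRoot f),
        R.comap (algebraMap K (AdjoinRoot f)) = A → ∃ z : AdjoinRoot f, z ≠ 0 ∧
          δ * (∏ i, descent a D f (P i) ^ s i) * z ^ n ∈ R ∧
          (δ * (∏ i, descent a D f (P i) ^ s i) * z ^ n)⁻¹ ∈ R) ∧
    (∀ (s : Fin r → ℕ) (z : AdjoinRoot f), ∏ i, descent a D f (P i) ^ s i = z ^ n →
      ∀ i, n ∣ s i) := by
  classical
  obtain ⟨hdvr, e, ϖ, u, g, P', Q', h', he, hen, hϖ, hDu, hg, hgf, hsq, hh, hprod, hP⟩ := h
  obtain ⟨H, rfl⟩ := Polynomial.map_surjective (IsLocalRing.residue A)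
    IsLocalRing.residue_surjective h'
  obtain rfl : (fun i => (P' i).map (algebraMap A K)) = P := funext fun i => (hP i).1
  obtain rfl : (fun i => (Q' i).map (algebraMap A K)) = Q := funext fun i => (hP i).2.1
  subst hgf
  have hfact : Fact (Irreducible (g.map (algebraMap A K))) := inferInstance
  have hdeg : (g.map (algebraMap A K)).natDegree = g.natDegree := hg.natDegree_map _
  have hdom : IsDomain (AdjoinRoot g) := by
    have h2 : Irreducible g :=
      (hg.irreducible_iff_irreducible_map_fraction_map (K := K)).2 hfact.out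
    exact AdjoinRoot.isDomain_of_prime h2.prime
  have hic : IsIntegrallyClosed (AdjoinRoot g) :=
    H80.CC.G.isIntegrallyClosed_of_squarefree (K := K) g hg hfact.out hsq
  have hded : IsDedekindDomain (AdjoinRoot g) := H94.TC.isDedekind_adjoinRoot g hg
  have hsp : H80.CC.G.Splits (IsLocalRing.residue A) ϖ g n e ((u : A) * ϖ ^ e) P' Q' H := by
    refine ⟨H80.CC.G.isRes_residue ϖ hϖ, he, hen, ⟨u, ?_, rfl⟩, hsq, fun i => (hP i).2.2.2.1, hh,
      hprod, fun i => (hP i).2.2.2.2⟩
    intro h1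
    exact hϖ.not_isUnit (isUnit_of_dvd_unit h1 u.isUnit)
  have hval : ∀ i, descent a D (g.map (algebraMap A K)) ((P' i).map (algebraMap A K)) =
      H94.TC.toField K g (H80.CC.G.valE a ((u : A) * ϖ ^ e) g (P' i)) := by
    intro i
    have h2 : algebraMap A K (-((u : A) * ϖ ^ e) ^ a) = -D ^ a := by
      rw [map_neg, map_pow, ← hDu]
    rw [descent, H80.CC.G.valE, map_mul, map_pow, H94.TC.toField_mk, H94.TC.toField_mk,
      Polynomial.map_C, h2, (hP i).2.2.1.natDegree_map]
  have hvalp : ∀ s : Fin r → ℕ,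
      ∏ i, descent a D (g.map (algebraMap A K)) ((P' i).map (algebraMap A K)) ^ s i =
      ∏ i, H94.TC.toField K g (H80.CC.G.valE a ((u : A) * ϖ ^ e) g (P' i)) ^ s i := fun s =>
    Finset.prod_congr rfl fun i _ => by rw [hval i]
  refine ⟨fun i => ⟨(hP i).2.2.1.map _, ?_, ?_⟩, fun δ hδ => ?_, fun s z hz i => ?_⟩
  · refine IsCoprime.symm ((hfact.out.coprime_iff_not_dvd).2 fun h0 => ?_)
    apply hsp.not_dvd i
    rw [← AdjoinRoot.mk_eq_zero] at h0 ⊢
    apply H94.TC.toField_injective K g hg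
    rw [map_zero, H94.TC.toField_mk]
    exact h0
  · have h1 := Polynomial.map_dvd (algebraMap A K) (hP i).2.2.2.2
    rwa [Polynomial.map_sub, Polynomial.map_mul, Polynomial.map_pow, Polynomial.map_C,
      ← hDu] at h1
  · obtain ⟨s, I, b, c, hI, hc, h1, h2⟩ := H80.CC.G.lift_place (K := K) g hg a hn
      (by rw [← hdeg]; exact ha) ((u : A) * ϖ ^ e) P' Q' H hϖ hsp δ
      (fun s => by rw [← hvalp]; exact (hδ s).1) (fun s => by rw [← hvalp]; exact (hδ s).2)
    refine ⟨s, fun R hR => ?_⟩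
    rw [hvalp s]
    exact H80.CC.unit_at (H94.TC.toField K g) (H94.TC.toField_injective K g hg) R
      (fun x => mem_of_integral A R hR _ (H80.CC.toField_integral g hg x)) I hI b c hc _ h1 h2
  · let _ := (H94.TC.toField K g).toAlgebra
    have : IsFractionRing (AdjoinRoot g) (AdjoinRoot (g.map (algebraMap A K))) :=
      H94.TC.isFractionRing_toField K g hg
    have := H94.TC.torsionFree_adjoinRoot g hg
    have hϖ0 : AdjoinRoot.mk g (C ϖ) ≠ 0 := by
      have h1 : AdjoinRoot.mk g (C ϖ) = algebraMap A (AdjoinRoot g) ϖ := rfl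
      rw [h1, Ne, FaithfulSMul.algebraMap_eq_zero_iff]
      exact hϖ.ne_zero
    rw [hvalp s] at hz
    exact hsp.indep (AdjoinRoot (g.map (algebraMap A K))) hn hϖ0 a s z hz i

end lifting

theorem result (K : Type) [Field K] (V : Set (ValuationSubring K)) (f : K[X]) (hf : f.Monic)
    [Fact (Irreducible f)] (hsep : f.Separable) (n a : ℕ) (hn : n ≠ 0)
    (ha : n ∣ a * f.natDegree + 1) (D : K) (hD : D ≠ 0) (r : ℕ) (P Q : Fin r → K[X])
    (hV : IsRegularLifting V n D f P Q) :
    (∀ δ, IsSelmer V n a D f δ →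
      ∃ s : Fin r → ℕ, IsDivisible V n f (δ * ∏ i, descent a D f (P i) ^ s i)) ∧
    ((∀ δ : AdjoinRoot f, δ ≠ 0 → IsDivisible V n f δ → ∃ (c : K) (γ z : AdjoinRoot f),
        IsValue n a D f γ ∧ δ = algebraMap K (AdjoinRoot f) c * γ * z ^ n) →
      ∀ δ, IsSelmer V n a D f δ ↔ IsValue n a D f δ) ∧
    ((∀ δ : AdjoinRoot f, δ ≠ 0 → IsDivisible V n f δ → ∃ (c : K) (z : AdjoinRoot f),
        δ = algebraMap K (AdjoinRoot f) c * z ^ n) →
      (∀ δ, (IsSelmer V n a D f δ ↔ IsValue n a D f δ) ∧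
        (IsValue n a D f δ ↔ δ ≠ 0 ∧
          ∃ (s : Fin r → ℕ) (z : AdjoinRoot f), δ = (∏ i, descent a D f (P i) ^ s i) * z ^ n)) ∧
      ∀ (s : Fin r → ℕ) (z : AdjoinRoot f), ∏ i, descent a D f (P i) ^ s i = z ^ n →
        ∀ i, n ∣ s i) := by
  classical
  -- the points
  have hpts : (∀ i, IsMumford n D f (P i) (Q i)) ∧
      (∀ (s : Fin r → ℕ) (z : AdjoinRoot f), ∏ i, descent a D f (P i) ^ s i = z ^ n →
        ∀ i, n ∣ s i) := by
    rcases hV with ⟨hr, -⟩ | ⟨A₀, -, hL, -⟩
    · subst hr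
      exact ⟨fun i => i.elim0, fun _ _ _ i => i.elim0⟩
    · exact ⟨(hL.data hn hf ha).1, (hL.data hn hf ha).2.2⟩
  have hvalp : ∀ s : Fin r → ℕ, IsValue n a D f (∏ i, descent a D f (P i) ^ s i) := fun s =>
    isValue_prod _ _ fun i _ => isValue_pow (isValue_descent hn (hpts.1 i)) _
  have hsel : ∀ δ, IsSelmer V n a D f δ → ∀ s : Fin r → ℕ,
      IsSelmer V n a D f (δ * ∏ i, descent a D f (P i) ^ s i) := fun δ hδ s =>
    isSelmer_mul hn hD hf ha hδ (hvalp s)
  have h1 : ∀ δ, IsSelmer V n a D f δ →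
      ∃ s : Fin r → ℕ, IsDivisible V n f (δ * ∏ i, descent a D f (P i) ^ s i) := by
    intro δ hδ
    rcases hV with ⟨hr, hreg⟩ | ⟨A₀, hA₀, hL, hreg⟩
    · subst hr
      refine ⟨Fin.elim0, fun A hdvr hA R hR => ?_⟩
      exact divisible_at hn hD hf hsep ha (hsel δ hδ _) A hA (hreg A hA hdvr) R hR
    · obtain ⟨s, hs⟩ := (hL.data hn hf ha).2.1 δ (fun s => ⟨(hsel δ hδ s).ne_zero,
        (hsel δ hδ s).norm⟩)
      refine ⟨s, fun A hdvr hA R hR => ?_⟩
      by_cases hAA : A = A₀
      · exact hs R (by rw [hR, hAA])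
      · exact divisible_at hn hD hf hsep ha (hsel δ hδ s) A hA (hreg A hA hdvr hAA) R hR
  -- from `δ ∏ δ_i ^ s_i` to `δ`
  have hback : ∀ (δ γ : AdjoinRoot f) (s : Fin r → ℕ), γ ≠ 0 →
      δ * (∏ i, descent a D f (P i) ^ s i) = γ →
      ∏ i, descent a D f (P i) ^ s i ≠ 0 ∧ δ = γ * (∏ i, descent a D f (P i) ^ ((n - 1) * s i)) *
        (∏ i, descent a D f (P i) ^ s i)⁻¹ ^ n := by
    intro δ γ s hγ h
    have hE0 : ∏ i, descent a D f (P i) ^ s i ≠ 0 := by
      intro h0
      rw [h0, mul_zero] at h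
      exact hγ h.symm
    refine ⟨hE0, ?_⟩
    have h5 : ∏ i, descent a D f (P i) ^ ((n - 1) * s i) =
        (∏ i, descent a D f (P i) ^ s i) ^ (n - 1) := by
      rw [← Finset.prod_pow]
      refine Finset.prod_congr rfl fun i _ => ?_
      rw [← pow_mul, mul_comm]
    set E := ∏ i, descent a D f (P i) ^ s i with hE
    have h6 : E ^ n = E ^ (n - 1) * E := by
      rw [← pow_succ]; congr 1; omega
    rw [h5, ← h, inv_pow, h6]
    field_simp
  have h2 : (∀ δ : AdjoinRoot f, δ ≠ 0 → IsDivisible V n f δ → ∃ (c : K) (γ z : AdjoinRoot f),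
        IsValue n a D f γ ∧ δ = algebraMap K (AdjoinRoot f) c * γ * z ^ n) →
      ∀ δ, IsSelmer V n a D f δ ↔ IsValue n a D f δ := by
    intro hval δ
    refine ⟨fun hδ => ?_, isSelmer_of_isValue hn hD hf ha⟩
    obtain ⟨s, hs⟩ := h1 δ hδ
    have hδs := hsel δ hδ s
    obtain ⟨c, γ, z, hγ, hz⟩ := hval _ hδs.ne_zero hs
    obtain ⟨z', hz'0, hz'⟩ := const_root hn hf ha hδs.ne_zero c hz hδs.norm
      (norm_of_isValue hn hD hf ha hγ)
    obtain ⟨hE0, h2⟩ := hback δ _ s (by rw [← hz']; exact hδs.ne_zero) hz'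
    rw [h2]
    exact isValue_mul_pow (isValue_mul (isValue_mul_pow hγ hz'0) (hvalp _)) (inv_ne_zero hE0)
  refine ⟨h1, h2, fun hpic => ⟨fun δ => ⟨?_, fun hδ => ?_, ?_⟩, hpts.2⟩⟩
  · refine h2 (fun δ hδ hdiv => ?_) δ
    obtain ⟨c, z, hz⟩ := hpic δ hδ hdiv
    exact ⟨c, 1, z, isValue_one n a D f, by rw [mul_one]; exact hz⟩
  · have hδ' : IsSelmer V n a D f δ := isSelmer_of_isValue hn hD hf ha hδ
    obtain ⟨s, hs⟩ := h1 δ hδ'
    have hδs := hsel δ hδ' s
    obtain ⟨c, z, hz⟩ := hpic _ hδs.ne_zero hs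
    obtain ⟨z', hz'0, hz'⟩ := const_root (γ := 1) hn hf ha hδs.ne_zero c
      (by rw [mul_one]; exact hz) hδs.norm ⟨1, by rw [map_one, one_pow]⟩
    rw [one_mul] at hz'
    obtain ⟨hE0, h2⟩ := hback δ _ s (pow_ne_zero n hz'0) hz'
    refine ⟨hδ'.ne_zero, fun i => (n - 1) * s i, z' * (∏ i, descent a D f (P i) ^ s i)⁻¹, ?_⟩
    rw [h2, mul_pow]
    ring
  · rintro ⟨hδ0, s, z, rfl⟩
    refine isValue_mul_pow (hvalp s) ?_
    rintro rfl
    rw [zero_pow hn, mul_zero] at hδ0
    exact hδ0 rfl

end Pool.Agent.Results.MP_1bad5e_ag.CoverSections
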