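import Pool.Agent.H80.CC.GoodPl

/-!
# MP_1bad5e_ag: the surfaces `D z ^ n = f(t, x)` and the branch curve `f(t, x) = 0`

`K` is a field and `V` is a set of discrete valuation rings of `K`. For the Tate conjecture
`K = F(t)`, `F` a finite field with `n ∣ |F| - 1`, and `V` is the set of all discrete valuation
rings of `K` containing `F`. `f ∈ K[x]` is monic, irreducible and separable of degree `d` prime to
`n`, `L = K[x]/(f)`, `D ∈ K^*`, and `J` is the Jacobian of the curve `D z ^ n = f(x)` over `K`, on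
which `ζ ∈ μ_n` acts. For each `A ∈ V` we assume that the curve `f(t, x) = 0` is, in a suitable
coordinate, regular above `A` and the equation is not twisted at `A`, or that there is only one
place of `L` above `A`.

Then the elements of the `(1 - ζ)`-Selmer group of `J` are represented by elements of `L^*` which
have, at each place of `L` above `V`, a valuation divisible by `n`. So the Selmer group
vanishes if the complete curve with function field `L` (the branch curve) has no divisor class of
order dividing `n` and the constants are in `K`, and it is equal to `J(K)/(1 - ζ)J(K)` if all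
those classes come from `J(K)`.
-/

namespace Pool.Agent.Results.MP_1bad5e_ag.CyclicCovers

open Polynomial IsDedekindDomain

/-- `(P, Q)` represents, over the field `k`, an effective divisor on `c z ^ m = g(x)` which is
disjoint from the points with `z = 0`, the points with `P(x) = 0` and `z = Q(x)`: `P` is monic,
prime to `g`, and divides `c Q ^ m - g`. -/
def IsMumford {k : Type} [Field k] (m : ℕ) (c : k) (g P Q : k[X]) : Prop :=
  P.Monic ∧ IsCoprime P g ∧ P ∣ C c * Q ^ m - g

/-- The value `∏ c ^ a (x(p) - θ) = (-c ^ a) ^ r P(θ)` of the function `c ^ a (x - θ)` on the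
divisor, in `k[x]/(g)`, where `θ` is the class of `x` and `r` is the degree of `P`. If `n` divides
`a d + 1`, where `d` is the degree of `g`, then `c ^ a (x - θ)` is on `c z ^ n = g(x)` near the
point at infinity the `n`-th power of a function with leading coefficient one. -/
noncomputable def descent {k : Type} [Field k] (a : ℕ) (c : k) (g P : k[X]) : AdjoinRoot g :=
  AdjoinRoot.mk g (C (-c ^ a)) ^ P.natDegree * AdjoinRoot.mk g P

/-- The element `δ` of `k[x]/(g)` is, up to an `n`-th power, the value of the descent map of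
`c z ^ n = g(x)` on a divisor: `δ γ ^ n` is a product of elements `descent a c g P ^ (n / m)`, with
`m` a divisor of `n` and `P` dividing `c Q ^ m - g`, that is, `z ^ (n / m) = Q(x)` on the divisor
with `P(x) = 0`. -/
def IsValue {k : Type} [Field k] (n a : ℕ) (c : k) (g : k[X]) (δ : AdjoinRoot g) : Prop :=
  ∃ (r : ℕ) (m : Fin r → ℕ) (P Q : Fin r → k[X]) (γ : AdjoinRoot g),
    (∀ i, m i ∣ n ∧ IsMumford (m i) c g (P i) (Q i)) ∧
    δ * γ ^ n = ∏ i, descent a c g (P i) ^ (n / m i)

/-- After a change of the variable `x` to `l x + m` the equation `D z ^ n = f(x)` is good at the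
discrete valuation ring `A` of `K`: the polynomial `g(x) = l ^ (-d) f(l x + m)` has coefficients in
`A`, the ring `A[x]/(g)` is integrally closed, and `D l ^ (-d)` is a unit of `A` times an `n`-th
power; `d` is the degree of `f`. -/
def IsGood {K : Type} [Field K] (n : ℕ) (D : K) (f : K[X]) (A : ValuationSubring K) : Prop :=
  ∃ (l m e : K) (u : Aˣ) (g : A[X]), l ≠ 0 ∧ g.Monic ∧
    C (l ^ f.natDegree) * g.map (algebraMap A K) = f.comp (C l * X + C m) ∧
    IsIntegrallyClosed (AdjoinRoot g) ∧ D = l ^ f.natDegree * algebraMap A K u * e ^ n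

/-- The completion `K_A` of `K` at the discrete valuation ring `A`. -/
abbrev Completion {K : Type} [Field K] (A : ValuationSubring K) [IsDiscreteValuationRing A] :
    Type :=
  (IsDiscreteValuationRing.maximalIdeal A).adicCompletion K

/-- The natural map from `L = K[x]/(f)` to `L ⊗ K_A = K_A[x]/(f)`. -/
noncomputable def toCompletion {K : Type} [Field K] (f : K[X]) (A : ValuationSubring K)
    [IsDiscreteValuationRing A] :
    AdjoinRoot f →+* AdjoinRoot (f.map (algebraMap K (Completion A))) :=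
  AdjoinRoot.map (algebraMap K (Completion A)) f (f.map (algebraMap K (Completion A))) dvd_rfl

/-- `δ ∈ L^*` has norm in `K^{*n}` and, at each good `A ∈ V`, there is a unit `b` of the integral
closure of `A` in `L` such that `δ b` is in `L ⊗ K_A` a value of the descent map of
`D z ^ n = f(x)`. -/
structure IsSelmer {K : Type} [Field K] (V : Set (ValuationSubring K)) (n a : ℕ) (D : K)
    (f : K[X]) (δ : AdjoinRoot f) : Prop where
  ne_zero : δ ≠ 0
  norm : ∃ y : K, Algebra.norm K δ = y ^ n
  locally : ∀ (A : ValuationSubring K) [IsDiscreteValuationRing A], A ∈ V → IsGood n D f A →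
    ∃ b : (integralClosure A (AdjoinRoot f))ˣ,
      IsValue n a (algebraMap K (Completion A) D) (f.map (algebraMap K (Completion A)))
        (toCompletion f A (δ * (b : integralClosure A (AdjoinRoot f))))

/-- `δ` is a unit times an `n`-th power in every valuation ring `R` of `L` above a discrete
valuation ring `A ∈ V`. -/
def IsDivisible {K : Type} [Field K] (V : Set (ValuationSubring K)) (n : ℕ) (f : K[X])
    [Fact (Irreducible f)] (δ : AdjoinRoot f) : Prop :=
  ∀ (A : ValuationSubring K) [IsDiscreteValuationRing A], A ∈ V →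
    ∀ R : ValuationSubring (AdjoinRoot f), R.comap (algebraMap K (AdjoinRoot f)) = A →
      ∃ z : AdjoinRoot f, z ≠ 0 ∧ δ * z ^ n ∈ R ∧ (δ * z ^ n)⁻¹ ∈ R

section values

variable {k : Type} [Field k]

theorem descent_isUnit (a : ℕ) (c : k) (hc : c ≠ 0) (g P : k[X]) (hP : IsCoprime P g) :
    IsUnit (descent a c g P) := by
  refine IsUnit.mul (IsUnit.pow _ ?_) ?_
  · have h1 : IsUnit (C (-c ^ a) : k[X]) := by
      rw [isUnit_C, isUnit_iff_ne_zero]
      exact neg_ne_zero.2 (pow_ne_zero _ hc)
    exact h1.map _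
  · obtain ⟨s, t, hst⟩ := hP
    refine IsUnit.of_mul_eq_one (AdjoinRoot.mk g s) ?_
    rw [← map_mul, ← map_one (AdjoinRoot.mk g), ← hst, map_add, map_mul (AdjoinRoot.mk g) t g,
      AdjoinRoot.mk_self, mul_zero, add_zero, mul_comm]

theorem isUnit_of_isValue {n a : ℕ} (hn : n ≠ 0) {c : k} (hc : c ≠ 0) {g : k[X]}
    {δ γ : AdjoinRoot g} {r : ℕ} {m : Fin r → ℕ} {P Q : Fin r → k[X]}
    (hm : ∀ i, m i ∣ n ∧ IsMumford (m i) c g (P i) (Q i))
    (h : δ * γ ^ n = ∏ i, descent a c g (P i) ^ (n / m i)) : IsUnit δ ∧ IsUnit γ := by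
  have h1 : IsUnit (δ * γ ^ n) := by
    rw [h]
    refine (Finset.univ.prod_induction _ IsUnit (fun _ _ => IsUnit.mul) isUnit_one
      fun i _ => IsUnit.pow _ (descent_isUnit a c hc g (P i) (hm i).2.2.1))
  rw [IsUnit.mul_iff, isUnit_pow_iff hn] at h1
  exact h1

theorem norm_descent (a : ℕ) {n : ℕ} (c : k) (g : k[X]) (hg : g.Monic)
    (ha : n ∣ a * g.natDegree + 1) (m : ℕ) (hm : m ∣ n) (P Q : k[X])
    (h : IsMumford m c g P Q) :
    ∃ y : k, Algebra.norm k (descent a c g P ^ (n / m)) = y ^ n := by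
  obtain ⟨y, hy⟩ := H94.TL.norm_descent c g hg m a (hm.trans ha) P Q h.1 h.2.2
  refine ⟨y, ?_⟩
  have h1 : Algebra.norm k (descent a c g P) = y ^ m := hy
  rw [map_pow, h1, ← pow_mul, Nat.mul_div_cancel' hm]

theorem norm_of_isValue {n a : ℕ} (hn : n ≠ 0) {c : k} (hc : c ≠ 0) {g : k[X]} (hg : g.Monic)
    (ha : n ∣ a * g.natDegree + 1) {δ : AdjoinRoot g} (h : IsValue n a c g δ) :
    ∃ y : k, Algebra.norm k δ = y ^ n := by
  obtain ⟨r, m, P, Q, γ, hm, h⟩ := h
  have hu := isUnit_of_isValue hn hc hm h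
  choose y hy using fun i => norm_descent a c g hg ha (m i) (hm i).1 (P i) (Q i) (hm i).2
  have h1 := congrArg (Algebra.norm k) h
  rw [map_mul, map_pow, map_prod] at h1
  simp only [hy] at h1
  rw [Finset.prod_pow] at h1
  have h2 : Algebra.norm k γ ≠ 0 := (hu.2.map (Algebra.norm k)).ne_zero
  exact ⟨(∏ i, y i) / Algebra.norm k γ, by rw [div_pow, eq_div_iff (pow_ne_zero _ h2), h1]⟩

end values

section

variable {K : Type} [Field K]

theorem isSelmer_of_isValue {V : Set (ValuationSubring K)} {n a : ℕ} (hn : n ≠ 0) {D : K}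
    (hD : D ≠ 0) {f : K[X]} (hf : f.Monic) [Fact (Irreducible f)] (ha : n ∣ a * f.natDegree + 1)
    {δ : AdjoinRoot f} (h : IsValue n a D f δ) : IsSelmer V n a D f δ := by
  refine ⟨?_, norm_of_isValue hn hD hf ha h, fun A _ _ _ => ⟨1, ?_⟩⟩
  · obtain ⟨r, m, P, Q, γ, hm, h⟩ := h
    exact (isUnit_of_isValue hn hD hm h).1.ne_zero
  · have h1 : (((1 : (integralClosure A (AdjoinRoot f))ˣ) : integralClosure A (AdjoinRoot f)) :
        AdjoinRoot f) = 1 := rfl
    rw [h1, mul_one]
    exact H80.CC.val_map (algebraMap K (Completion A)) h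

/-- a valuation ring of `L` above `A` contains the elements which are integral over `A` -/
theorem mem_of_integral {L : Type} [Field L] [Algebra K L] (A : ValuationSubring K)
    (R : ValuationSubring L) (hR : R.comap (algebraMap K L) = A) (x : L) (hx : IsIntegral A x) :
    x ∈ R := by
  obtain ⟨p, hp, hpx⟩ := hx
  have hmem : ∀ s : A, algebraMap A L s ∈ R := by
    intro s
    have h1 : (s : K) ∈ R.comap (algebraMap K L) := by rw [hR]; exact s.2
    exact h1
  let φ : A →+* R := (algebraMap A L).codRestrict R.toSubring hmem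
  have h1 : IsIntegral R x := by
    refine ⟨p.map φ, hp.map φ, ?_⟩
    rw [eval₂_map]
    exact hpx
  obtain ⟨y, hy⟩ := IsIntegrallyClosed.isIntegral_iff.1 h1
  rw [← hy]
  exact y.2

theorem isSeparable_adjoinRoot (f : K[X]) (hf : f.Monic) [Fact (Irreducible f)]
    (hsep : f.Separable) : Algebra.IsSeparable K (AdjoinRoot f) := by
  have hfin : FiniteDimensional K (AdjoinRoot f) := hf.finite_adjoinRoot
  have h1 : IsSeparable K (AdjoinRoot.root f) := by
    have h2 : minpoly K (AdjoinRoot.root f) ∣ f := by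
      apply minpoly.dvd
      rw [AdjoinRoot.aeval_eq, AdjoinRoot.mk_self]
    exact hsep.of_dvd h2
  have h3 : Algebra.IsSeparable K (IntermediateField.adjoin K {AdjoinRoot.root f}) :=
    (IntermediateField.isSeparable_adjoin_simple_iff_isSeparable _ _).2 h1
  have h4 : IntermediateField.adjoin K {AdjoinRoot.root f} = ⊤ := by
    have h5 : Algebra.adjoin K {AdjoinRoot.root f} = ⊤ := AdjoinRoot.adjoinRoot_eq_top
    apply IntermediateField.toSubalgebra_injective
    rw [IntermediateField.adjoin_simple_toSubalgebra_of_isAlgebraic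
      (Algebra.IsAlgebraic.isAlgebraic _), h5]
    rfl
  rw [h4] at h3
  exact (AlgEquiv.Algebra.isSeparable_iff
    (IntermediateField.topEquiv (F := K) (E := AdjoinRoot f))).1 h3

theorem isDivisible_of_isSelmer {V : Set (ValuationSubring K)} {n a : ℕ} (hn : n ≠ 0) {D : K}
    (hD : D ≠ 0) {f : K[X]} (hf : f.Monic) [Fact (Irreducible f)] (hsep : f.Separable)
    (ha : n ∣ a * f.natDegree + 1)
    (hV : ∀ (A : ValuationSubring K) [IsDiscreteValuationRing A], A ∈ V →
      IsGood n D f A ∨ IsLocalRing (integralClosure A (AdjoinRoot f)))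
    {δ : AdjoinRoot f} (h : IsSelmer V n a D f δ) : IsDivisible V n f δ := by
  intro A _ hA R hR
  rcases hV A hA with hgood | hloc
  · obtain ⟨b, hb⟩ := h.locally A hA hgood
    obtain ⟨l, m, e, u, g, hl, hg, hfg, hic, hDe⟩ := hgood
    have he : e ≠ 0 := by
      rintro rfl
      rw [zero_pow hn, mul_zero] at hDe
      exact hD hDe
    exact H80.CC.good_place f n a hn ha D l m e u g hl hg hfg hic he hDe δ h.ne_zero h.norm
      ((b : integralClosure A (AdjoinRoot f)) : AdjoinRoot f)
      (((b⁻¹ : (integralClosure A (AdjoinRoot f))ˣ) : integralClosure A (AdjoinRoot f)) :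
        AdjoinRoot f) (b : integralClosure A (AdjoinRoot f)).2
      ((b⁻¹ : (integralClosure A (AdjoinRoot f))ˣ) : integralClosure A (AdjoinRoot f)).2
      (by
        have h1 := congrArg (fun x : integralClosure A (AdjoinRoot f) => (x : AdjoinRoot f))
          (Units.mul_inv b)
        exact h1)
      hb R (fun x hx => mem_of_integral A R hR x hx)
  · have hfin : FiniteDimensional K (AdjoinRoot f) := hf.finite_adjoinRoot
    have hrank : Module.finrank K (AdjoinRoot f) = f.natDegree :=
      finrank_quotient_span_eq_natDegree' hf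
    have hs : Algebra.IsSeparable K (AdjoinRoot f) := isSeparable_adjoinRoot f hf hsep
    have hcop : n.Coprime (Module.finrank K (AdjoinRoot f)) := by
      rw [hrank]
      have h1 : Nat.gcd n f.natDegree ∣ a * f.natDegree + 1 := (Nat.gcd_dvd_left _ _).trans ha
      have h2 : Nat.gcd n f.natDegree ∣ a * f.natDegree := (Nat.gcd_dvd_right _ _).mul_left _
      exact Nat.dvd_one.1 ((Nat.dvd_add_right h2).1 h1)
    have hded : IsDedekindDomain (integralClosure A (AdjoinRoot f)) :=
      integralClosure.isDedekindDomain A K (AdjoinRoot f)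
    obtain ⟨J, b, c, hJ, hc, h1, h2⟩ := H80.CC.one_place (A := A) (K := K) (L := AdjoinRoot f) hn
      hcop (fun v w w' _ _ => by
        apply HeightOneSpectrum.ext
        rw [IsLocalRing.eq_maximalIdeal w.isMaximal, IsLocalRing.eq_maximalIdeal w'.isMaximal])
      δ h.ne_zero h.norm
    exact H80.CC.unit_at (integralClosure A (AdjoinRoot f)).subtype Subtype.val_injective R
      (fun s => mem_of_integral A R hR _ s.2) J hJ b c hc δ h1 h2

/-- a constant in front -/
theorem const_root {n a : ℕ} (hn : n ≠ 0) {f : K[X]} (hf : f.Monic) [Fact (Irreducible f)]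
    (ha : n ∣ a * f.natDegree + 1) {δ γ z : AdjoinRoot f} (hδ : δ ≠ 0) (c : K)
    (h : δ = algebraMap K (AdjoinRoot f) c * γ * z ^ n)
    (hN : ∃ y : K, Algebra.norm K δ = y ^ n) (hN' : ∃ y : K, Algebra.norm K γ = y ^ n) :
    ∃ z' : AdjoinRoot f, z' ≠ 0 ∧ δ = γ * z' ^ n := by
  have hfinite : Module.Finite K (AdjoinRoot f) := hf.finite_adjoinRoot
  have hfin : Module.finrank K (AdjoinRoot f) = f.natDegree :=
    finrank_quotient_span_eq_natDegree' hf
  have hcopn : n.Coprime f.natDegree := by
    have h1 : Nat.gcd n f.natDegree ∣ a * f.natDegree + 1 := (Nat.gcd_dvd_left _ _).trans ha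
    have h2 : Nat.gcd n f.natDegree ∣ a * f.natDegree := (Nat.gcd_dvd_right _ _).mul_left _
    exact Nat.dvd_one.1 ((Nat.dvd_add_right h2).1 h1)
  obtain ⟨y, hy⟩ := hN
  obtain ⟨y', hy'⟩ := hN'
  have h6 := hy
  rw [h, map_mul, map_mul, map_pow, Algebra.norm_algebraMap, hfin, hy'] at h6
  have hc0 : c ≠ 0 := by
    intro h0
    rw [h0, map_zero, zero_mul, zero_mul] at h
    exact hδ h
  have hz0 : z ≠ 0 := by
    rintro rfl
    rw [zero_pow hn, mul_zero] at h
    exact hδ h
  have hNz : Algebra.norm K z ≠ 0 := by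
    rw [Ne, Algebra.norm_eq_zero_iff]
    exact hz0
  have hy0 : y ≠ 0 := by
    rintro rfl
    rw [zero_pow hn, Algebra.norm_eq_zero_iff] at hy
    exact hδ hy
  have hy'0 : y' ≠ 0 := by
    rintro rfl
    rw [zero_pow hn, mul_zero, zero_mul] at h6
    exact pow_ne_zero n hy0 h6.symm
  have h8 : c ^ f.natDegree = (y / (y' * Algebra.norm K z)) ^ n := by
    rw [div_pow, eq_div_iff (pow_ne_zero _ (mul_ne_zero hy'0 hNz)), ← h6, mul_pow]
    ring
  obtain ⟨k', hk'0, hk'⟩ := H94.TL.root_of_pow_eq (K := K) hcopn c _ hc0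
    (div_ne_zero hy0 (mul_ne_zero hy'0 hNz)) h8
  refine ⟨algebraMap K (AdjoinRoot f) k' * z, mul_ne_zero ?_ hz0, ?_⟩
  · rw [Ne, map_eq_zero]; exact hk'0
  · rw [h, hk', map_pow, mul_pow]
    ring

end

theorem result (K : Type) [Field K] (V : Set (ValuationSubring K)) (f : K[X]) (hf : f.Monic)
    [Fact (Irreducible f)] (hsep : f.Separable) (n a : ℕ) (hn : n ≠ 0)
    (ha : n ∣ a * f.natDegree + 1) (D : K) (hD : D ≠ 0)
    (hV : ∀ (A : ValuationSubring K) [IsDiscreteValuationRing A], A ∈ V →
      IsGood n D f A ∨ IsLocalRing (integralClosure A (AdjoinRoot f))) :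
    (∀ δ, IsSelmer V n a D f δ → IsDivisible V n f δ) ∧
    ((∀ δ : AdjoinRoot f, δ ≠ 0 → IsDivisible V n f δ → ∃ (c : K) (γ z : AdjoinRoot f),
        IsValue n a D f γ ∧ δ = algebraMap K (AdjoinRoot f) c * γ * z ^ n) →
      ∀ δ, IsSelmer V n a D f δ → IsValue n a D f δ) ∧
    ((∀ δ : AdjoinRoot f, δ ≠ 0 → IsDivisible V n f δ → ∃ (c : K) (z : AdjoinRoot f),
        δ = algebraMap K (AdjoinRoot f) c * z ^ n) →
      ∀ δ, IsSelmer V n a D f δ ∨ IsValue n a D f δ → ∃ z : AdjoinRoot f, δ = z ^ n) := by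
  have h1 : ∀ δ, IsSelmer V n a D f δ → IsDivisible V n f δ := fun δ hδ =>
    isDivisible_of_isSelmer hn hD hf hsep ha hV hδ
  refine ⟨h1, fun hval δ hδ => ?_, fun hpic δ hδ => ?_⟩
  · obtain ⟨c, γ, z, hγ, hz⟩ := hval δ hδ.ne_zero (h1 δ hδ)
    obtain ⟨z', hz'0, hz'⟩ := const_root hn hf ha hδ.ne_zero c hz hδ.norm
      (norm_of_isValue hn hD hf ha hγ)
    obtain ⟨r, m, P, Q, γ', hm, hγ'⟩ := hγ
    refine ⟨r, m, P, Q, γ' / z', hm, ?_⟩
    rw [← hγ', hz', div_pow, mul_assoc, mul_div_cancel₀ _ (pow_ne_zero n hz'0)]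
  · have hδ' : IsSelmer V n a D f δ := hδ.elim id (isSelmer_of_isValue hn hD hf ha)
    obtain ⟨c, z, hz⟩ := hpic δ hδ'.ne_zero (h1 δ hδ')
    obtain ⟨z', _, hz'⟩ := const_root (γ := 1) hn hf ha hδ'.ne_zero c (by rw [mul_one]; exact hz)
      hδ'.norm ⟨1, by rw [map_one, one_pow]⟩
    exact ⟨z', by rw [hz', one_mul]⟩

end Pool.Agent.Results.MP_1bad5e_ag.CyclicCovers
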