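import Mathlib
import Pool.Agent.H11.Selberg.Defs
import Pool.Agent.H80.Sel.MainX

set_option autoImplicit false

namespace Pool.Agent.Results.MP_8e9775_nt.DegreeTwoWithTypeAtTwo

open Pool.Agent.H11.Selberg

/-- Let `F` be an element of the Selberg class without a pole at `s = 1`, with a functional
equation of degree two (`∑ lam j = 1`) and conductor `q = (2 π)^2 Q^2 ∏ lam_j^(2 lam_j)`, and let
`m ≥ 1` be such that `a n = 0` unless `n ≡ 1 (mod m)` (every `F` has this property for `m = 1`).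
Put `t = 0` in general; if `m` is odd one may put `t = 1/2` if the Euler factor of `F` at the
prime two is `1/(1 - a(2) 2^(-s) + ω 4^(-s))` with `|ω| = 1` and `a(2) = ω * conj (a(2))`, and
`t = 1/√2` if it is `1/(1 - a(2) 2^(-s))` with `|a(2)|^2 = 1/2`.
If `q < 4 (1 + t)^2 m^2` then `S_F(x) = log log x + O(1)`. -/
theorem result :
    ∀ (a : ℕ → ℂ) (F H : ℂ → ℂ) (Q : ℝ) (r : ℕ) (lam : Fin r → ℝ) (mu : Fin r → ℂ) (ε : ℂ)
      (m : ℕ) (t : ℝ),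
      IsSelberg a F →
      Differentiable ℂ H → (∀ s : ℂ, s ≠ 1 → H s = F s) →
      0 < Q → (∀ j, 0 < lam j) → (∀ j, 0 ≤ (mu j).re) → ‖ε‖ = 1 →
      (∀ s : ℂ, 0 < s.re → s.re < 1 →
        completed Q lam mu F s =
          ε * (starRingEnd ℂ) (completed Q lam mu F (1 - (starRingEnd ℂ) s))) →
      ∑ j, lam j = 1 →
      1 ≤ m → (∀ n : ℕ, n % m ≠ 1 % m → a n = 0) →
      (t = 0 ∨
        (Odd m ∧ t = 1 / 2 ∧ ∃ ω : ℂ, ‖ω‖ = 1 ∧ a 2 = ω * (starRingEnd ℂ) (a 2) ∧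
          ∀ k : ℕ, a (2 ^ (k + 2)) = a 2 * a (2 ^ (k + 1)) - ω * a (2 ^ k)) ∨
        (Odd m ∧ t = 1 / Real.sqrt 2 ∧ ‖a 2‖ ^ 2 = 1 / 2 ∧
          ∀ k : ℕ, a (2 ^ (k + 1)) = a 2 * a (2 ^ k))) →
      (2 * Real.pi) ^ 2 * Q ^ 2 * ∏ j, (lam j) ^ (2 * lam j) < 4 * (1 + t) ^ 2 * (m : ℝ) ^ 2 →
      ∃ C : ℝ, ∀ x : ℝ, 2 ≤ x → |S a x - Real.log (Real.log x)| ≤ C := by
  intro a F H Q r lam mu ε m t h hH hHF hQ hlam hmu hε hfeq hdeg hm hsp ht hcond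
  refine Pool.Agent.H80.Sel.mainX a F H Q lam mu ε h hH hHF hQ hlam hmu hε hfeq hdeg m hm hsp ?_
  rcases ht with rfl | ⟨hodd, rfl, hω⟩ | ⟨hodd, rfl, hα⟩
  · left
    refine lt_of_lt_of_le hcond (le_of_eq ?_)
    ring
  · refine Or.inr (Or.inl ⟨hodd, lt_of_lt_of_le hcond (le_of_eq ?_), hω⟩)
    ring
  · refine Or.inr (Or.inr ⟨hodd, lt_of_lt_of_le hcond (le_of_eq ?_), hα⟩)
    have h2 : Real.sqrt 2 * Real.sqrt 2 = 2 := Real.mul_self_sqrt (by norm_num)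
    have h20 : 0 < Real.sqrt 2 := Real.sqrt_pos.mpr (by norm_num)
    have h3 : 1 / Real.sqrt 2 = Real.sqrt 2 / 2 := by
      rw [div_eq_div_iff h20.ne' (by norm_num)]
      linarith
    rw [h3]
    have h4 : Real.sqrt 2 ^ 2 = 2 := by rw [sq]; exact h2
    linear_combination ((m : ℝ) ^ 2) * h4

end Pool.Agent.Results.MP_8e9775_nt.DegreeTwoWithTypeAtTwo
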